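import Mathlib

namespace Pool.Agent.Results.MP_e6b4b8_nt.LocalObstruction

/-- The statement of Q1: for every positive integer `k` there are infinitely many natural numbers
`n` with `μ((n+j)^2+1) = 1` for all `j = 0, …, k-1`. -/
def LongRuns : Prop :=
  ∀ k : ℕ, 0 < k → {n : ℕ | ∀ j < k, ArithmeticFunction.moebius ((n + j) ^ 2 + 1) = 1}.Infinite

/-- Among any 14 consecutive natural numbers `n, …, n+13` there is one congruent to `7` or `18`
modulo `25`, and then `25` divides the value of `T^2+1`. -/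
lemma exists_dvd (n : ℕ) : ∃ j < 14, 25 ∣ (n + j) ^ 2 + 1 := by
  have h : ∀ r < 25, ∃ j < 14, 25 ∣ (r + j) ^ 2 + 1 := by decide
  obtain ⟨j, hj, hd⟩ := h (n % 25) (Nat.mod_lt _ (by norm_num))
  refine ⟨j, hj, ?_⟩
  have e : (n + j) ^ 2 + 1 ≡ (n % 25 + j) ^ 2 + 1 [MOD 25] := by
    apply Nat.ModEq.add_right
    apply Nat.ModEq.pow
    exact Nat.ModEq.add_right j (Nat.mod_modEq n 25).symm
  exact (e.dvd_iff (dvd_refl 25)).mpr hd

/-- Negative answer to Q1: among any 14 consecutive values of `T^2+1` at natural numbers one has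
Mobius value `0`, so for every `k ≥ 14` there is not even one `n` with `k` Mobius values equal
to `1`; in particular the statement of Q1 is false. -/
theorem result : ¬ LongRuns ∧
    ∀ n : ℕ, ∃ j < 14, ArithmeticFunction.moebius ((n + j) ^ 2 + 1) = 0 := by
  have key : ∀ n : ℕ, ∃ j < 14, ArithmeticFunction.moebius ((n + j) ^ 2 + 1) = 0 := by
    intro n
    obtain ⟨j, hj, hd⟩ := exists_dvd n
    refine ⟨j, hj, ?_⟩
    apply ArithmeticFunction.moebius_eq_zero_of_not_squarefree
    intro hsq
    have := hsq 5 (by simpa using hd)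
    have h5 := Nat.isUnit_iff.mp this
    omega
  refine ⟨?_, key⟩
  intro h
  obtain ⟨n, hn⟩ := (h 14 (by norm_num)).nonempty
  obtain ⟨j, hj, h0⟩ := key n
  have h1 := hn j hj
  rw [h0] at h1
  exact absurd h1 (by norm_num)

end Pool.Agent.Results.MP_e6b4b8_nt.LocalObstruction
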